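import Pool.Agent.K1H73.ON.Stm

/-! Project ON (MP_4960b8_pr), piece XS: symmetric differences of several hexagons. -/

set_option autoImplicit false

namespace Pool.Agent.K1H91.ON

open Finset Pool.Agent.K1H73.ON

lemma xs_insert (c : V) (T : Finset V) (hc : c ∉ T) : xs (insert c T) = symmDiff (hex c) (xs T) := by
  unfold xs
  rw [Finset.fold_insert hc]

lemma hex_card (c : V) : (hex c).card ≤ 6 := by
  unfold hex
  exact Finset.card_image_le.trans (le_of_eq (Finset.card_range 6))

lemma sd_sub (A B : Finset (Sym2 V)) : symmDiff A B ⊆ A ∪ B := by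
  intro e he
  rw [Finset.mem_symmDiff] at he
  rw [Finset.mem_union]
  tauto

theorem t_XS (h : CF) : XS := by
  intro T
  induction T using Finset.induction_on with
  | empty =>
    have e : xs ∅ = ∅ := by
      unfold xs
      rw [Finset.fold_empty]
    refine ⟨?_, ?_, ?_⟩
    · intro e' he
      rw [e] at he
      exact absurd he (Finset.notMem_empty _)
    · rw [e]
      simp
    · intro D a b ω hω _
      rw [e]
      have : symmDiff ω ∅ = ω := symmDiff_bot ω
      rw [this]
      exact hω
  | insert c T hc ih =>
    obtain ⟨i1, i2, i3⟩ := ih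
    rw [xs_insert c T hc]
    refine ⟨?_, ?_, ?_⟩
    · intro e he
      have h1 := sd_sub _ _ he
      rw [Finset.mem_union] at h1
      rcases h1 with h1 | h1
      · exact ⟨c, Finset.mem_insert_self c T, h1⟩
      · obtain ⟨c', h2, h3⟩ := i1 e h1
        exact ⟨c', Finset.mem_insert_of_mem h2, h3⟩
    · have h1 := (Finset.card_le_card (sd_sub (hex c) (xs T))).trans (Finset.card_union_le _ _)
      have h2 := hex_card c
      rw [Finset.card_insert_of_notMem hc]
      omega
    · intro D a b ω hω hT
      have h1 := i3 D a b ω hω fun c' hc' => hT c' (Finset.mem_insert_of_mem hc')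
      have h2 := hT c (Finset.mem_insert_self c T)
      have h3 := h D a b (symmDiff ω (xs T)) c h1 h2.1 h2.2
      rw [symmDiff_comm (hex c) (xs T), ← symmDiff_assoc]
      exact h3

end Pool.Agent.K1H91.ON
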